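import Mathlib

set_option autoImplicit false

namespace Pool.Agent.Results.MP_157dc7_co.Counter

open Set Pointwise Classical

/-- linear forms cutting out an arrangement of `n` hyperplanes in `ℝ^l` -/
abbrev Arr (n l : ℕ) := Fin n → (Fin l → ℝ) →ₗ[ℝ] ℝ

variable {n l : ℕ}

/-- the forms are nonzero and their kernels are distinct -/
def IsArr (α : Arr n l) : Prop := (∀ i, α i ≠ 0) ∧ Function.Injective fun i => LinearMap.ker (α i)

/-- chambers: connected components of the complement -/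
abbrev Ch (α : Arr n l) := ConnectedComponents {x : Fin l → ℝ // ∀ i, α i x ≠ 0}

/-- Heaviside function -/
noncomputable def heav (R : Type) [CommRing R] (α : Arr n l) (i : Fin n) (c : Ch α) : R :=
  if ∃ x, ConnectedComponents.mk x = c ∧ 0 < α i x.1 then 1 else 0

/-- degree filtration: span of the products of `k` factors, each `1` or a Heaviside function -/
noncomputable def F (R : Type) [CommRing R] (α : Arr n l) (k : ℕ) : Submodule R (Ch α → R) :=
  Submodule.span R ((insert 1 (range (heav R α))) ^ k)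

/-- isomorphism of the oriented matroids: same sign vectors after relabelling and reorienting -/
def OMIso (α β : Arr n l) : Prop :=
  ∃ (σ : Fin n ≃ Fin n) (ε : Fin n → SignTypeˣ),
    range (fun x i => SignType.sign (α i x)) = range fun x i => ε i * SignType.sign (β (σ i) x)

noncomputable def tope (α : Arr n l) : Ch α → Fin n → Bool :=
  Continuous.connectedComponentsLift (f := fun x i => decide (0 < α i x.1)) (continuous_pi fun i =>
    (IsLocallyConstant.iff_eventually_eq _).2 (fun x => by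
      have c : Continuous fun y : {x : Fin l → ℝ // ∀ i, α i x ≠ 0} => α i y.1 :=
        (α i).continuous_of_finiteDimensional.comp continuous_subtype_val
      rcases (x.2 i).lt_or_gt with h | h
      · filter_upwards [c.continuousAt.eventually (gt_mem_nhds h)] with y hy
        simp [hy.not_gt, h.not_gt]
      · filter_upwards [c.continuousAt.eventually (lt_mem_nhds h)] with y hy
        simp [hy, h]) |>.continuous)

lemma heav_eq (R : Type) [CommRing R] (α : Arr n l) (i : Fin n) (c : Ch α) :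
    heav R α i c = if tope α c i then 1 else 0 := by
  obtain ⟨x, rfl⟩ := ConnectedComponents.surjective_coe c
  refine if_congr ⟨fun ⟨y, h1, h2⟩ => h1 ▸ decide_eq_true h2, fun h => ⟨x, rfl, of_decide_eq_true h⟩⟩ rfl rfl

lemma tope_inj (α : Arr n l) : Function.Injective (tope α) := fun c d h => by
  obtain ⟨x, rfl⟩ := ConnectedComponents.surjective_coe c
  obtain ⟨y, rfl⟩ := ConnectedComponents.surjective_coe d
  have k : ∀ i, 0 < α i x.1 ↔ 0 < α i y.1 := fun i => decide_eq_decide.1 (congrFun h i)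
  have s : segment ℝ x.1 y.1 ⊆ {x | ∀ i, α i x ≠ 0} := by
    rintro _ ⟨a, b, ha, hb, hab, rfl⟩ i
    simp only [map_add, map_smul, smul_eq_mul]
    rcases (x.2 i).lt_or_gt with h1 | h1
    · have h2 := lt_of_le_of_ne (not_lt.1 fun h => h1.not_gt ((k i).2 h)) (y.2 i)
      rcases ha.eq_or_lt with rfl | ha <;> nlinarith
    · have h2 := (k i).1 h1
      rcases ha.eq_or_lt with rfl | ha <;> nlinarith
  refine ConnectedComponents.coe_eq_coe'.2 (IsPreconnected.subset_connectedComponent (s := Subtype.val ⁻¹'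
    segment ℝ x.1 y.1) ?_ (right_mem_segment _ _ _) (left_mem_segment _ _ _))
  exact Topology.IsInducing.subtypeVal.isPreconnected_image.1 ((image_preimage_eq_of_subset
    (s.trans Subtype.range_coe.ge)).symm ▸ (convex_segment _ _).isPreconnected)

abbrev p (i : Fin 4) : (Fin 4 → ℝ) →ₗ[ℝ] ℝ := LinearMap.proj i

noncomputable def A : Arr 6 4 := ![p 0, p 1, -p 0 - p 1, p 3, p 2, -p 3 - p 2]
noncomputable def B : Arr 6 4 := ![p 0, p 1, -p 0 - p 1, p 3, p 2, -p 0 - p 2]

def g (t : Fin 6 → Bool) : Fin 6 → Bool := ![t 0, t 1, t 2, t 3, t 4 ^^ (t 3 ^^ t 0), t 5 ^^ (t 3 ^^ t 0)]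

lemma range_tope (α : Arr n l) (t : Fin n → Bool) :
    t ∈ range (tope α) ↔ ∃ x, ∀ i, α i x ≠ 0 ∧ (t i ↔ 0 < α i x) :=
  ⟨fun ⟨c, h⟩ => by
    obtain ⟨x, rfl⟩ := ConnectedComponents.surjective_coe c
    exact ⟨x, fun i => ⟨x.2 i, h ▸ decide_eq_true_iff⟩⟩,
  fun ⟨x, h⟩ => ⟨ConnectedComponents.mk ⟨x, fun i => (h i).1⟩, funext fun i =>
    Bool.eq_iff_iff.2 (decide_eq_true_iff.trans (h i).2.symm)⟩⟩

lemma tri {a b c : Bool} {x y : ℝ} (h1 : x ≠ 0 ∧ (a ↔ 0 < x)) (h2 : y ≠ 0 ∧ (b ↔ 0 < y))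
    (h3 : -x - y ≠ 0 ∧ (c ↔ 0 < -x - y)) : ¬ (a = b ∧ a = c) := by
  rintro ⟨rfl, rfl⟩
  cases a
  · simp only [Bool.false_eq_true, false_iff, not_lt] at *
    exact h1.1 (by linarith [h1.2, h2.2, h3.2])
  · linarith [h1.2.1 rfl, h2.2.1 rfl, h3.2.1 rfl]

lemma tri' {a b c : Bool} (h : ¬ (a = b ∧ a = c)) : ∃ y : ℝ, (y ≠ 0 ∧ (b ↔ 0 < y)) ∧
    (-(if a then 1 else -1) - y ≠ 0 ∧ (c ↔ 0 < -(if a then 1 else -1) - y)) := by
  refine ⟨(if b then 1 else -1) * if b = c then 1 / 2 else 2, ?_⟩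
  revert h
  cases a <;> cases b <;> cases c <;> norm_num

lemma rA (t : Fin 6 → Bool) : t ∈ range (tope A) ↔ ¬ (t 0 = t 1 ∧ t 0 = t 2) ∧ ¬ (t 3 = t 4 ∧ t 3 = t 5) :=
  (range_tope A t).trans ⟨fun ⟨x, h⟩ => ⟨tri (h 0) (h 1) (h 2), tri (h 3) (h 4) (h 5)⟩, fun ⟨h1, h2⟩ => by
    obtain ⟨y, y1, y2⟩ := tri' h1
    obtain ⟨z, z1, z2⟩ := tri' h2
    refine ⟨![if t 0 then 1 else -1, y, z, if t 3 then 1 else -1], fun i => ?_⟩
    fin_cases i
    exacts [by cases h : t 0 <;> simp [A, h], y1, y2, by cases h : t 3 <;> simp [A, h], z1, z2]⟩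

lemma rB (t : Fin 6 → Bool) : t ∈ range (tope B) ↔ ¬ (t 0 = t 1 ∧ t 0 = t 2) ∧ ¬ (t 0 = t 4 ∧ t 0 = t 5) :=
  (range_tope B t).trans ⟨fun ⟨x, h⟩ => ⟨tri (h 0) (h 1) (h 2), tri (h 0) (h 4) (h 5)⟩, fun ⟨h1, h2⟩ => by
    obtain ⟨y, y1, y2⟩ := tri' h1
    obtain ⟨z, z1, z2⟩ := tri' h2
    refine ⟨![if t 0 then 1 else -1, y, z, if t 3 then 1 else -1], fun i => ?_⟩
    fin_cases i
    exacts [by cases h : t 0 <;> simp [B, h], y1, y2, by cases h : t 3 <;> simp [B, h], z1, z2]⟩

lemma gg : ∀ t, g (g t) = t := by decide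

noncomputable def e : Ch A ≃ Ch B := (Equiv.ofInjective _ (tope_inj A)).trans
  ((Equiv.subtypeEquiv ⟨g, g, gg, gg⟩ fun t => by
    rw [rA, rB]; revert t; decide).trans (Equiv.ofInjective _ (tope_inj B)).symm)

lemma tope_e (c : Ch A) : tope B (e c) = g (tope A c) := Equiv.apply_ofInjective_symm (tope_inj B) _

lemma mem (R : Type) [CommRing R] [CharP R 2] (α : Arr 6 4) (i : Fin 6) :
    (fun c => if g (tope α c) i then 1 else 0) ∈ Submodule.span R (insert 1 (range (heav R α))) := by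
  have h : ∀ j, (fun c => if tope α c j then 1 else 0) ∈ Submodule.span R (insert 1 (range (heav R α))) :=
    fun j => Submodule.subset_span (Or.inr ⟨j, funext (heav_eq R α j)⟩)
  have x : ∀ j, (fun c => if (tope α c j ^^ (tope α c 3 ^^ tope α c 0)) then 1 else 0) ∈
      Submodule.span R (insert 1 (range (heav R α))) := fun j => by
    convert add_mem (h j) (add_mem (h 3) (h 0)) using 1
    funext c
    simp only [Pi.add_apply]
    cases tope α c j <;> cases tope α c 3 <;> cases tope α c 0 <;> simp [CharTwo.add_self_eq_zero]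
  fin_cases i
  exacts [h 0, h 1, h 2, h 3, x 4, x 5]

theorem result : ∃ α β : Arr 6 4, IsArr α ∧ IsArr β ∧ ¬ OMIso α β ∧
    ∀ (R : Type) [CommRing R] [CharP R 2], ∃ φ : (Ch α → R) ≃ₐ[R] (Ch β → R),
      ∀ k, (F R α k).map φ.toLinearMap = F R β k := by
  have t : ∀ α : Arr 6 4, (∀ i, ∃ j, α i (Pi.single j 1) ≠ 0) → (∀ i k, (∀ j,
      α i (Pi.single j 1) = 0 ↔ α k (Pi.single j 1) = 0) → i = k) → IsArr α :=
    fun α h1 h2 => ⟨fun i h => (h1 i).elim fun j hj => hj (by simp [h]), fun i k h =>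
      h2 i k fun j => SetLike.ext_iff.1 h _⟩
  refine ⟨A, B, t A ?_ ?_, t B ?_ ?_, ?_, fun R _ _ => ⟨AlgEquiv.piCongrLeft' R (fun _ => R) e, fun k => ?_⟩⟩
  · simp [A, Fin.forall_fin_succ, Fin.exists_fin_succ]
  · intro i k; fin_cases i <;> fin_cases k <;> simp [A, Fin.forall_fin_succ]
  · simp [B, Fin.forall_fin_succ, Fin.exists_fin_succ]
  · intro i k; fin_cases i <;> fin_cases k <;> simp [B, Fin.forall_fin_succ]
  · rintro ⟨σ, ε, h⟩
    obtain ⟨x, hx⟩ := h.ge ⟨Pi.single 3 1, rfl⟩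
    have k : ∀ i, A i x = 0 ↔ i ≠ σ.symm 3 := fun i => by
      rw [← sign_eq_zero_iff, show SignType.sign (A i x) = _ from congrFun hx i, Units.mul_right_eq_zero,
        sign_eq_zero_iff, Ne, Equiv.eq_symm_apply]
      generalize σ i = j
      fin_cases j <;> simp [B]
    generalize σ.symm 3 = j at k
    fin_cases j <;> simp [A, Fin.forall_fin_succ] at k <;> grind
  · simp only [F, ← Submodule.span_pow]
    refine (Submodule.map_pow _ (AlgEquiv.piCongrLeft' R (fun _ => R) e).toAlgHom k).trans ?_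
    congr 1
    refine le_antisymm (Submodule.map_span_le _ _ _ |>.2 ?_) (Submodule.span_le.2 ?_)
    · rintro _ (rfl | ⟨i, rfl⟩)
      · exact Submodule.subset_span (Or.inl rfl)
      · convert mem R B i using 1
        funext d
        obtain ⟨c, rfl⟩ := e.surjective d
        rw [tope_e, gg, ← heav_eq]
        exact congrArg (heav R A i) (e.symm_apply_apply c)
    · rintro _ (rfl | ⟨i, rfl⟩)
      · exact ⟨1, Submodule.subset_span (Or.inl rfl), rfl⟩
      · refine ⟨_, mem R A i, funext fun d => ?_⟩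
        obtain ⟨c, rfl⟩ := e.surjective d
        rw [heav_eq, tope_e]
        exact congrArg (fun c => if g (tope A c) i then (1 : R) else 0) (e.symm_apply_apply c)

end Pool.Agent.Results.MP_157dc7_co.Counter
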